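import Pool.Agent.W5h37.Miy.Basic
import Pool.Agent.R480.Jes.Exp

/-!
# The exponents of a solution are bounded by a power of `log f`
-/

set_option autoImplicit false

namespace Pool.Agent.W5h37.Miy

open Pool.Agent.Y902.FB Pool.Agent.TH888.B1 Pool.Agent.R480.Jes

theorem exp_bound : ∃ C κ : ℕ, ∀ S₀ : ℕ, 2 ≤ S₀ → ∀ f g x y z : ℕ, 0 < g → g < f →
    Nat.Coprime f g → Odd (f + g) → 2 * f ^ 2 ≤ 2 ^ S₀ → Sol f g x y z →
    x ≤ C * S₀ ^ κ ∧ y ≤ C * S₀ ^ κ ∧ z ≤ C * S₀ ^ κ := by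
  obtain ⟨C₁, κ₁, hC₁⟩ := exp_bound_even
  obtain ⟨C₂, hC₂⟩ := boot (2 * 10 ^ 9 + 8) 4
  refine ⟨C₁ + C₂, κ₁ + 4, ?_⟩
  intro S₀ hS₀ f g x y z hg hgf hcop hodd hfS hsol
  have hxz := hsol.lt hg hgf
  obtain ⟨hx, hy, hz, he⟩ := hsol
  obtain ⟨e1, hv, hu, c1, c2, c3, pyth, e2, hpar, hpar'⟩ := facts hg hgf hcop hodd
  have hg2 : g ^ 2 < f ^ 2 := Nat.pow_lt_pow_left hgf two_ne_zero
  have hBe : 2 ∣ 2 * f * g := ⟨f * g, by ring⟩
  have hA3 : 3 ≤ f ^ 2 - g ^ 2 := by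
    rw [e1]
    calc 3 ≤ 1 * (f + g) := by omega
      _ ≤ (f - g) * (f + g) := Nat.mul_le_mul_right _ hu.pos
  have hAS : f ^ 2 - g ^ 2 ≤ 2 ^ S₀ := by omega
  have hDS : f ^ 2 + g ^ 2 ≤ 2 ^ S₀ := by omega
  have hBS : 2 * f * g ≤ 2 ^ S₀ := by
    have : 2 * f * g ≤ 2 * f ^ 2 := by nlinarith
    omega
  obtain ⟨A, hA⟩ : ∃ A, A = f ^ 2 - g ^ 2 := ⟨_, rfl⟩
  obtain ⟨B, hB⟩ : ∃ B, B = 2 * f * g := ⟨_, rfl⟩
  obtain ⟨D, hD⟩ : ∃ D, D = f ^ 2 + g ^ 2 := ⟨_, rfl⟩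
  have hBpos : 0 < B := by rw [hB]; have : 0 < f := by omega
                           positivity
  rw [← hA] at hA3 hAS hpar c1 c3 he
  rw [← hB] at hBS hBe c1 c2 he
  rw [← hD] at hDS hpar' c2 c3 he
  have hAD : A < D := by
    have : 0 < g ^ 2 := by positivity
    omega
  have hp1 : C₁ * S₀ ^ κ₁ ≤ (C₁ + C₂) * S₀ ^ (κ₁ + 4) :=
    Nat.mul_le_mul (by omega) (Nat.pow_le_pow_right (by omega) (by omega))
  have hp2 : C₂ * S₀ ^ 4 ≤ (C₁ + C₂) * S₀ ^ (κ₁ + 4) :=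
    Nat.mul_le_mul (by omega) (Nat.pow_le_pow_right (by omega) (by omega))
  rcases Nat.lt_or_ge y 2 with hy2 | hy2
  · have hy1 : y = 1 := by omega
    subst hy1
    rw [pow_one] at he
    have hzb : z ≤ C₂ * 1 ^ 2 * S₀ ^ 4 := by
      apply hC₂ S₀ 1 z (by omega) le_rfl
      obtain ⟨S, hS⟩ : ∃ S, S = S₀ + 2 * (Nat.log 2 z + 1) := ⟨_, rfl⟩
      rw [← hS]
      have hz2 : z ≤ 2 ^ S := le_two_pow_log (by omega)
      have h2S : (2 : ℕ) ^ S₀ ≤ 2 ^ S := Nat.pow_le_pow_right (by norm_num) (by omega)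
      have h1 := (arch_diff (S := S) (T := S₀) (A := D) (U := A) (m := x) (k := z) (by omega)
        (by omega) (by omega) (by omega) (by omega) hx hz (by omega) (by omega) (by
          have h3 : (A : ℤ) ^ z - (D : ℤ) ^ x = B := by
            have : ((D ^ x + B : ℕ) : ℤ) = ((A ^ z : ℕ) : ℤ) := by rw [he]
            push_cast at this
            linear_combination -this
          rw [h3, Nat.abs_cast]
          exact_mod_cast hBS)).2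
      have h2 : S ≤ S ^ 4 := Nat.le_self_pow (by norm_num) _
      have h3 : 1 ≤ S ^ 4 := Nat.one_le_pow _ _ (by omega)
      calc z ≤ 2 * 10 ^ 9 * S ^ 4 + 2 * S₀ + 5 := h1
        _ ≤ (2 * 10 ^ 9 + 8) * 1 * S ^ 4 := by omega
    rw [one_pow, mul_one] at hzb
    have h1 : 1 ≤ (C₁ + C₂) * S₀ ^ (κ₁ + 4) := by omega
    exact ⟨by omega, h1, hzb.trans hp2⟩
  · obtain ⟨h1, h2, h3⟩ := hC₁ S₀ hS₀ B D A y x z (by omega) (by omega) hBS hDS hAS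
      c3 hBe hpar' hpar hy2 hx hz 1 1 (Or.inl rfl) (Or.inl rfl)
      (by
        have : ((D ^ x + B ^ y : ℕ) : ℤ) = ((A ^ z : ℕ) : ℤ) := by rw [he]
        push_cast at this
        linear_combination this) (by omega)
    exact ⟨(h2 (by omega)).trans hp1, h1.trans hp1, (h3 (by omega)).trans hp1⟩

end Pool.Agent.W5h37.Miy
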