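import Mathlib

/-!
# Many primes just above a given number
-/

set_option autoImplicit false

namespace Pool.Agent.W5h37.Miy

open Finset

theorem many_primes (Q L : ℕ) : ∃ P : Finset ℕ, P.card = L ∧ ∀ p ∈ P, p.Prime ∧ Q < p ∧
    p ≤ 8 * (Q + L + 2) * (Nat.log 2 (Q + L + 2) + 1) := by
  classical
  obtain ⟨M, hM⟩ : ∃ M, M = Q + L + 2 := ⟨_, rfl⟩
  obtain ⟨l, hl⟩ : ∃ l, l = Nat.log 2 M + 1 := ⟨_, rfl⟩
  obtain ⟨T, hT⟩ : ∃ T, T = 8 * M * l := ⟨_, rfl⟩
  rw [← hM, ← hl, ← hT]
  have hM2 : 2 ≤ M := by omega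
  have hl1 : 1 ≤ l := by omega
  have hT1 : 1 ≤ T := by rw [hT]; exact Nat.mul_pos (by omega) hl1
  have hl2 : 0 < Real.log 2 := Real.log_pos (by norm_num)
  have hMl : M ≤ 2 ^ l := by
    rw [hl]
    exact (Nat.lt_pow_succ_log_self (by norm_num) M).le
  have hll : l ≤ 2 ^ l := Nat.lt_two_pow_self.le
  have hT2 : T ≤ 2 ^ (3 + 2 * l) := by
    rw [hT]
    calc 8 * M * l ≤ 8 * 2 ^ l * 2 ^ l := Nat.mul_le_mul (Nat.mul_le_mul_left _ hMl) hll
      _ = 2 ^ (3 + 2 * l) := by rw [pow_add, two_mul, pow_add]; ring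
  have hlogT : Real.log T ≤ 5 * l * Real.log 2 := by
    have h1 : (T : ℝ) ≤ (2 : ℝ) ^ (3 + 2 * l) := by exact_mod_cast hT2
    have h2 := Real.log_le_log (by exact_mod_cast hT1) h1
    rw [Real.log_pow] at h2
    refine h2.trans (mul_le_mul_of_nonneg_right ?_ hl2.le)
    have h3 : (3 + 2 * l : ℕ) ≤ 5 * l := by omega
    exact_mod_cast h3
  have hlogT1 : Real.log (T + 1) ≤ 3 * M * l * Real.log 2 := by
    have h0 : (T : ℝ) + 1 ≤ (2 : ℝ) ^ (4 + 2 * l) := by
      have h1 : T + 1 ≤ 2 ^ (4 + 2 * l) := by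
        have : (2 : ℕ) ^ (4 + 2 * l) = 2 * 2 ^ (3 + 2 * l) := by rw [← pow_succ']; congr 1; omega
        rw [this]
        have : 1 ≤ (2 : ℕ) ^ (3 + 2 * l) := Nat.one_le_two_pow
        omega
      exact_mod_cast h1
    have h2 := Real.log_le_log (by positivity) h0
    rw [Real.log_pow] at h2
    refine h2.trans (mul_le_mul_of_nonneg_right ?_ hl2.le)
    have h3 : (4 + 2 * l : ℕ) ≤ 3 * M * l := by nlinarith
    exact_mod_cast h3
  have hpi : M ≤ Nat.primeCounting T := by
    have h1 := Chebyshev.psi_ge T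
    have h2 := Chebyshev.psi_le_primeCounting_mul_log T
    have hlogpos : 0 < Real.log T := by
      apply Real.log_pos
      have : 1 < T := by
        rw [hT]
        nlinarith
      exact_mod_cast this
    have h3 : (M : ℝ) * Real.log T ≤ (Nat.primeCounting T : ℝ) * Real.log T := by
      refine le_trans ?_ (h1.trans h2)
      have hTr : (T : ℝ) = 8 * M * l := by rw [hT]; push_cast; ring
      have hM0 : (0 : ℝ) ≤ M := Nat.cast_nonneg _
      calc (M : ℝ) * Real.log T ≤ M * (5 * l * Real.log 2) := mul_le_mul_of_nonneg_left hlogT hM0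
        _ = 8 * M * l * Real.log 2 - 3 * M * l * Real.log 2 := by ring
        _ ≤ (T : ℝ) * Real.log 2 - Real.log (T + 1) := by rw [hTr]; rw [← hTr]; linarith
    have h4 := le_of_mul_le_mul_right h3 hlogpos
    exact_mod_cast h4
  have hcard : ((range (T + 1)).filter Nat.Prime).card = Nat.primeCounting T := by
    rw [Nat.primeCounting, Nat.primeCounting', Nat.count_eq_card_filter_range]
  obtain ⟨G, hG⟩ : ∃ G, G = (range (T + 1)).filter (fun p => p.Prime ∧ Q < p) := ⟨_, rfl⟩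
  have hGL : L ≤ G.card := by
    have h1 : (range (T + 1)).filter Nat.Prime ⊆ G ∪ (range (Q + 1)) := by
      intro p hp
      simp only [mem_filter, mem_range] at hp
      simp only [mem_union, hG, mem_filter, mem_range]
      rcases Nat.lt_or_ge Q p with h | h
      · left; exact ⟨hp.1, hp.2, h⟩
      · right; omega
    have h2 := (card_le_card h1).trans (card_union_le _ _)
    rw [hcard, card_range] at h2
    omega
  obtain ⟨P, hPG, hPL⟩ := exists_subset_card_eq hGL
  refine ⟨P, hPL, fun p hp => ?_⟩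
  have h1 := hPG hp
  rw [hG, mem_filter, mem_range] at h1
  exact ⟨h1.2.1, h1.2.2, by omega⟩

end Pool.Agent.W5h37.Miy
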