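import Pool.Agent.W5h37.Miy.Det
import Pool.Agent.W5h37.Miy.Expo
import Pool.Agent.W5h37.Miy.Primes

/-!
# Counting the exceptional pairs
-/

set_option autoImplicit false

namespace Pool.Agent.W5h37.Miy

open Finset

/-- the derivative in `g`, as a natural number -/
def FbN (x y z f g : ℕ) : ℕ :=
  x * (f ^ 2 + g ^ 2) ^ (x - 1) * (2 * g) + y * (2 * f * g) ^ (y - 1) * (2 * f) +
    z * (f ^ 2 - g ^ 2) ^ (z - 1) * (2 * g)

theorem FbN_cast {x y z f g : ℕ} (h : g < f) : ((FbN x y z f g : ℕ) : ℤ) = Fb x y z f g := by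
  have hle : g ^ 2 ≤ f ^ 2 := Nat.pow_le_pow_left h.le 2
  unfold FbN Fb
  push_cast [Nat.cast_sub hle]
  ring

theorem FbN_lt {x y z f g S W : ℕ} (hf : 0 < f) (hg : g < f) (hS : 2 * f ^ 2 ≤ 2 ^ S)
    (hx : x ≤ W) (hy : y ≤ W) (hz : z ≤ W) : FbN x y z f g < 2 ^ (W + S * W + S + 2) := by
  have h1 : 1 ≤ (2 : ℕ) ^ S := Nat.one_le_two_pow
  have hgf : g ^ 2 ≤ f ^ 2 := Nat.pow_le_pow_left hg.le 2
  have hfg : 2 * f * g ≤ 2 ^ S := by nlinarith
  have hD : f ^ 2 + g ^ 2 ≤ 2 ^ S := by omega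
  have hA : f ^ 2 - g ^ 2 ≤ 2 ^ S := by omega
  have hf2 : 2 * f ≤ 2 ^ S := by nlinarith
  have hg2 : 2 * g ≤ 2 ^ S := by omega
  have key : ∀ {e b c : ℕ}, e ≤ W → b ≤ 2 ^ S → c ≤ 2 ^ S → e * b ^ (e - 1) * c ≤
      2 ^ (W + S * W + S) := by
    intro e b c he hb hc
    have h2 : e ≤ 2 ^ W := he.trans Nat.lt_two_pow_self.le
    have h3 : b ^ (e - 1) ≤ 2 ^ (S * W) := by
      calc b ^ (e - 1) ≤ (2 ^ S) ^ (e - 1) := Nat.pow_le_pow_left hb _
        _ ≤ (2 ^ S) ^ W := Nat.pow_le_pow_right (by omega) (by omega)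
        _ = _ := by rw [← pow_mul]
    calc e * b ^ (e - 1) * c ≤ 2 ^ W * 2 ^ (S * W) * 2 ^ S :=
          Nat.mul_le_mul (Nat.mul_le_mul h2 h3) hc
      _ = _ := by rw [← pow_add, ← pow_add]
  have k1 := key hx hD hg2
  have k2 := key hy hfg hf2
  have k3 := key hz hA hg2
  have h4 : (2 : ℕ) ^ (W + S * W + S + 2) = 4 * 2 ^ (W + S * W + S) := by
    rw [pow_add]; ring
  have h5 : 1 ≤ (2 : ℕ) ^ (W + S * W + S) := Nat.one_le_two_pow
  unfold FbN
  rw [h4]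
  omega

/-- the solutions with given exponents in the box -/
theorem fixed_card {x y z : ℕ} (hxy : x ≠ y) {S W N Q : ℕ} (hS : 2 * N ^ 2 ≤ 2 ^ S)
    (hx : x ≤ W) (hy : y ≤ W) (hz : z ≤ W) (hQ : 2 * N ^ 2 ≤ Q ^ 3)
    (E : Finset (ℕ × ℕ)) (hE : ∀ e ∈ E, 0 < e.2 ∧ e.2 < e.1 ∧ e.1 ≤ N ∧ Sol e.1 e.2 x y z) :
    E.card ≤ (W + S * W + S + 2) * ((6 * W) ^ 2 * (8 * (Q + (W + S * W + S + 2) + 2) *
      (Nat.log 2 (Q + (W + S * W + S + 2) + 2) + 1))) := by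
  classical
  obtain ⟨L, hL⟩ : ∃ L, L = W + S * W + S + 2 := ⟨_, rfl⟩
  rw [← hL]
  obtain ⟨P, hPc, hP⟩ := many_primes Q L
  have hsub : E ⊆ P.biUnion (fun p => E.filter (fun e => ¬ (p : ℤ) ∣ Fb x y z (e.1 : ℤ) (e.2 : ℤ))) := by
    intro e he
    obtain ⟨hg, hgf, hfN, hs⟩ := hE e he
    rw [mem_biUnion]
    by_contra hcon
    push Not at hcon
    have h1 : ∀ p ∈ P, p ∣ FbN x y z e.1 e.2 := by
      intro p hp
      have h2 := hcon p hp
      rw [mem_filter] at h2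
      push Not at h2
      have h3 := h2 he
      rw [← FbN_cast hgf] at h3
      exact_mod_cast h3
    have h2 : ∏ p ∈ P, p ∣ FbN x y z e.1 e.2 :=
      Finset.prod_primes_dvd _ (fun p hp => (hP p hp).1.prime) h1
    have hpos : 0 < FbN x y z e.1 e.2 := by
      unfold FbN
      have hx0 := hs.1
      have hf0 : 0 < e.1 := by omega
      have : 0 < x * (e.1 ^ 2 + e.2 ^ 2) ^ (x - 1) * (2 * e.2) := by positivity
      omega
    have h3 := Nat.le_of_dvd hpos h2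
    have h4 : 2 ^ L ≤ ∏ p ∈ P, p := by
      rw [← hPc, ← prod_const]
      exact prod_le_prod' fun p hp => (hP p hp).1.two_le
    have h5 : FbN x y z e.1 e.2 < 2 ^ L := by
      rw [hL]
      apply FbN_lt (by omega) hgf _ hx hy hz
      have := Nat.pow_le_pow_left hfN 2
      omega
    omega
  have hcl : ∀ p ∈ P, (E.filter (fun e => ¬ (p : ℤ) ∣ Fb x y z (e.1 : ℤ) (e.2 : ℤ))).card ≤
      (6 * W) ^ 2 * (8 * (Q + L + 2) * (Nat.log 2 (Q + L + 2) + 1)) := by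
    intro p hp
    obtain ⟨hpp, hQp, hpT⟩ := hP p hp
    have h1 := class_card (x := x) (y := y) (z := z) hxy (N := N) hpp
      (hQ.trans (Nat.pow_le_pow_left hQp.le 3))
      (E.filter (fun e => ¬ (p : ℤ) ∣ Fb x y z (e.1 : ℤ) (e.2 : ℤ))) (by
        intro e he
        rw [mem_filter] at he
        obtain ⟨q1, q2, q3, q4⟩ := hE e he.1
        exact ⟨q1, q2, q3, q4, he.2⟩)
    exact h1.trans (Nat.mul_le_mul (Nat.pow_le_pow_left (by omega) 2) hpT)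
  calc E.card ≤ _ := card_le_card hsub
    _ ≤ P.card * ((6 * W) ^ 2 * (8 * (Q + L + 2) * (Nat.log 2 (Q + L + 2) + 1))) :=
      card_biUnion_le_card_mul _ _ _ hcl
    _ = _ := by rw [hPc]

/-- All exponents at once. -/
theorem total {W M : ℕ} (E : Finset (ℕ × ℕ)) (R : ℕ → ℕ → ℕ → ℕ × ℕ → Prop)
    (hE : ∀ e ∈ E, ∃ x y z : ℕ, x ≤ W ∧ y ≤ W ∧ z ≤ W ∧ x ≠ y ∧ R x y z e)
    (hM : ∀ x y z : ℕ, x ≤ W → y ≤ W → z ≤ W → x ≠ y → ∀ F ⊆ E, (∀ e ∈ F, R x y z e) →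
      F.card ≤ M) : E.card ≤ (W + 1) ^ 3 * M := by
  classical
  obtain ⟨T, hT⟩ : ∃ T : Finset (ℕ × ℕ × ℕ), T = ((range (W + 1)) ×ˢ (range (W + 1)) ×ˢ
      (range (W + 1))).filter (fun t => t.1 ≠ t.2.1) := ⟨_, rfl⟩
  have hTc : T.card ≤ (W + 1) ^ 3 := by
    rw [hT]
    refine (card_filter_le _ _).trans ?_
    simp only [card_product, card_range]
    apply le_of_eq
    ring
  have hsub : E ⊆ T.biUnion (fun t => E.filter (fun e => R t.1 t.2.1 t.2.2 e)) := by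
    intro e he
    obtain ⟨x, y, z, hx, hy, hz, hxy, hR⟩ := hE e he
    rw [mem_biUnion]
    refine ⟨(x, y, z), ?_, ?_⟩
    · rw [hT, mem_filter]
      simp only [mem_product, mem_range]
      exact ⟨⟨by omega, by omega, by omega⟩, hxy⟩
    · rw [mem_filter]
      exact ⟨he, hR⟩
  calc E.card ≤ _ := card_le_card hsub
    _ ≤ T.card * M := by
      apply card_biUnion_le_card_mul
      rintro ⟨x, y, z⟩ ht
      rw [hT, mem_filter] at ht
      simp only [mem_product, mem_range] at ht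
      exact hM x y z (by omega) (by omega) (by omega) ht.2 _ (filter_subset _ _)
        (fun e he => (mem_filter.1 he).2)
    _ ≤ _ := Nat.mul_le_mul_right _ hTc

end Pool.Agent.W5h37.Miy
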