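import Mathlib
import Pool.Agent.W5h37.Miy.Count

/-!
The shuffled Pythagorean equation: bounds for the exponents and for the number of exceptional pairs.
-/

set_option autoImplicit false

namespace Pool.Agent.W5h37.Miy.Final

/-- `(f, g)` is one of the pairs of the problem -/
def Pair (f g : ℕ) : Prop := 0 < g ∧ g < f ∧ Nat.Coprime f g ∧ Odd (f + g)

/-- `(x, y, z)` is a solution for the pair `(f, g)` -/
def Solution (f g x y z : ℕ) : Prop :=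
  0 < x ∧ 0 < y ∧ 0 < z ∧ (f ^ 2 + g ^ 2) ^ x + (2 * f * g) ^ y = (f ^ 2 - g ^ 2) ^ z

/-- the counterexamples to the conjecture -/
def Exceptional : Set (ℕ × ℕ) :=
  {e | Pair e.1 e.2 ∧ ∃ x y z : ℕ, Solution e.1 e.2 x y z ∧
    ¬ (e.1 = e.2 + 1 ∧ x = 1 ∧ y = 1 ∧ z = 2)}

open Finset Pool.Agent.W5h37.Miy

theorem ncard_le {s : Set (ℕ × ℕ)} {N M : ℕ} (hs : ∀ e ∈ s, e.1 ≤ N ∧ e.2 < e.1)
    (h : ∀ F : Finset (ℕ × ℕ), (∀ e ∈ F, e ∈ s) → F.card ≤ M) : s.ncard ≤ M := by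
  classical
  have hfin : s.Finite := by
    refine (((range (N + 1)) ×ˢ (range (N + 1)) : Finset (ℕ × ℕ)).finite_toSet).subset ?_
    intro e he
    obtain ⟨h1, h2⟩ := hs e he
    simp only [coe_product, Set.mem_prod, mem_coe, mem_range]
    omega
  rw [Set.ncard_eq_toFinset_card s hfin]
  exact h _ fun e he => (hfin.mem_toFinset).1 he

theorem main : ∃ (C : ℝ) (K : ℕ), 0 < C ∧
    (∀ f g x y z : ℕ, Pair f g → Solution f g x y z →
      (x : ℝ) ≤ C * Real.log f ^ K ∧ (y : ℝ) ≤ C * Real.log f ^ K ∧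
        (z : ℝ) ≤ C * Real.log f ^ K) ∧
    (∀ (a b c : ℤ) (N : ℕ), (a ≠ 0 ∨ b ≠ 0) → 2 ≤ N →
      (({e ∈ Exceptional | e.1 ≤ N ∧ a * (e.1 : ℤ) + b * (e.2 : ℤ) = c}.ncard : ℕ) : ℝ) ≤
        C * Real.log N ^ K) ∧
    (∀ N : ℕ, 2 ≤ N → (({e ∈ Exceptional | e.1 ≤ N}.ncard : ℕ) : ℝ) ≤
      C * (N : ℝ) ^ ((2 : ℝ) / 3) * Real.log N ^ K) := by
  classical
  obtain ⟨C₀, κ, h₀⟩ := exp_bound
  -- the size of the numbers
  have hsize : ∀ N : ℕ, 2 ≤ N → 2 * N ^ 2 ≤ 2 ^ (2 * Nat.log 2 N + 3) := by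
    intro N _
    have h1 : N < 2 ^ (Nat.log 2 N + 1) := Nat.lt_pow_succ_log_self (by norm_num) N
    have h2 := Nat.pow_le_pow_left h1.le 2
    calc 2 * N ^ 2 ≤ 2 * (2 ^ (Nat.log 2 N + 1)) ^ 2 := Nat.mul_le_mul_left _ h2
      _ = 2 ^ (2 * Nat.log 2 N + 3) := by
        rw [← pow_mul, ← pow_succ']; congr 1; ring
  have hSlog : ∀ N : ℕ, 2 ≤ N → ((2 * Nat.log 2 N + 3 : ℕ) : ℝ) ≤ 8 * Real.log N := by
    intro N hN
    have hl2 := Real.log_two_gt_d9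
    have h1 : (2 : ℝ) ^ (Nat.log 2 N) ≤ N := by exact_mod_cast Nat.pow_log_le_self 2 (by omega)
    have h2 := Real.log_le_log (by positivity) h1
    rw [Real.log_pow] at h2
    have h3 : Real.log 2 ≤ Real.log N := Real.log_le_log (by norm_num) (by exact_mod_cast hN)
    have h4 : (0 : ℝ) ≤ Nat.log 2 N := Nat.cast_nonneg _
    push_cast
    nlinarith
  have hlogpos : ∀ N : ℕ, 2 ≤ N → 0 < Real.log N := by
    intro N hN
    exact Real.log_pos (by exact_mod_cast (by omega : 1 < N))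
  -- the exceptional pairs have exponents in the box, `x ≠ y`
  have hexc : ∀ N : ℕ, 2 ≤ N → ∀ e ∈ Exceptional, e.1 ≤ N → ∃ x y z : ℕ,
      x ≤ C₀ * (2 * Nat.log 2 N + 3) ^ κ ∧ y ≤ C₀ * (2 * Nat.log 2 N + 3) ^ κ ∧
      z ≤ C₀ * (2 * Nat.log 2 N + 3) ^ κ ∧ x ≠ y ∧ Sol e.1 e.2 x y z := by
    rintro N hN e ⟨⟨p1, p2, p3, p4⟩, x, y, z, hs, hne⟩ heN
    have hsz := hsize N hN
    have h1 : 2 * e.1 ^ 2 ≤ 2 ^ (2 * Nat.log 2 N + 3) := by
      have := Nat.pow_le_pow_left heN 2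
      omega
    obtain ⟨b1, b2, b3⟩ := h₀ (2 * Nat.log 2 N + 3) (by omega) e.1 e.2 x y z p1 p2 p3 p4 h1 hs
    refine ⟨x, y, z, b1, b2, b3, ?_, hs⟩
    rintro rfl
    obtain ⟨q1, q2, q3⟩ := eq_case p1 p2 p3 p4 hs
    exact hne ⟨q1, q2, q2, q3⟩
  -- constants
  obtain ⟨c, hc⟩ : ∃ c : ℕ, c = 2 * C₀ + 8 := ⟨_, rfl⟩
  obtain ⟨k, hk⟩ : ∃ k : ℕ, k = κ + 1 := ⟨_, rfl⟩
  obtain ⟨K, hK⟩ : ∃ K : ℕ, K = 8 * k := ⟨_, rfl⟩
  obtain ⟨C, hC⟩ : ∃ C : ℝ, C = 288 * (c : ℝ) ^ 8 * 8 ^ K := ⟨_, rfl⟩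
  have hc8 : (8 : ℝ) ≤ c := by rw [hc]; push_cast; linarith [Nat.cast_nonneg (α := ℝ) C₀]
  -- from `S` to the logarithm
  have hfin : ∀ (N : ℕ), 2 ≤ N → ∀ S : ℕ, S = 2 * Nat.log 2 N + 3 → ∀ j : ℕ, j ≤ 8 →
      288 * ((c : ℝ) * (S : ℝ) ^ k) ^ j ≤ C * Real.log N ^ K := by
    intro N hN S hS j hj
    have h1 := hSlog N hN
    rw [← hS] at h1
    have hS1 : (1 : ℝ) ≤ S := by
      have : 1 ≤ S := by omega
      exact_mod_cast this
    have hb : 1 ≤ (c : ℝ) * (S : ℝ) ^ k := by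
      have := one_le_pow₀ hS1 (n := k)
      nlinarith
    have h2 : ((c : ℝ) * (S : ℝ) ^ k) ^ j ≤ ((c : ℝ) * (S : ℝ) ^ k) ^ 8 := pow_le_pow_right₀ hb hj
    have h3 : ((c : ℝ) * (S : ℝ) ^ k) ^ 8 = (c : ℝ) ^ 8 * (S : ℝ) ^ K := by
      rw [mul_pow, ← pow_mul, hK]; ring
    have h4 : (S : ℝ) ^ K ≤ (8 * Real.log N) ^ K := pow_le_pow_left₀ (by positivity) h1 _
    calc 288 * ((c : ℝ) * (S : ℝ) ^ k) ^ j ≤ 288 * ((c : ℝ) ^ 8 * (S : ℝ) ^ K) := by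
          rw [← h3]; linarith
      _ ≤ 288 * ((c : ℝ) ^ 8 * (8 * Real.log N) ^ K) := by gcongr
      _ = C * Real.log N ^ K := by rw [hC, mul_pow]; ring
  -- natural number bounds
  have hW : ∀ S : ℕ, 3 ≤ S → C₀ * S ^ κ + 1 ≤ c * S ^ k := by
    intro S hS
    have h1 : S ^ κ ≤ S ^ k := Nat.pow_le_pow_right (by omega) (by omega)
    have h2 : 1 ≤ S ^ k := Nat.one_le_pow _ _ (by omega)
    calc C₀ * S ^ κ + 1 ≤ C₀ * S ^ k + 1 * S ^ k := by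
          have := Nat.mul_le_mul_left C₀ h1
          omega
      _ = (C₀ + 1) * S ^ k := by ring
      _ ≤ c * S ^ k := Nat.mul_le_mul_right _ (by omega)
  refine ⟨C, K, by rw [hC]; positivity, ?_, ?_, ?_⟩
  · -- the exponents
    rintro f g x y z ⟨p1, p2, p3, p4⟩ hs
    have hf : 2 ≤ f := by omega
    obtain ⟨S, hS⟩ : ∃ S, S = 2 * Nat.log 2 f + 3 := ⟨_, rfl⟩
    have h1 := hsize f hf
    rw [← hS] at h1
    obtain ⟨b1, b2, b3⟩ := h₀ S (by omega) f g x y z p1 p2 p3 p4 h1 hs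
    have h2 := hW S (by omega)
    have h3 := hfin f hf S hS 1 (by norm_num)
    have hpos : 0 ≤ (c : ℝ) * (S : ℝ) ^ k := by positivity
    rw [pow_one] at h3
    have key : ∀ e : ℕ, e ≤ C₀ * S ^ κ → (e : ℝ) ≤ C * Real.log f ^ K := by
      intro e he
      have h4 : e ≤ c * S ^ k := by omega
      have h5 : (e : ℝ) ≤ (c : ℝ) * (S : ℝ) ^ k := by exact_mod_cast h4
      linarith
    exact ⟨key x b1, key y b2, key z b3⟩
  · -- lines
    intro a b d N hab hN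
    obtain ⟨S, hS⟩ : ∃ S, S = 2 * Nat.log 2 N + 3 := ⟨_, rfl⟩
    have hex := hexc N hN
    rw [← hS] at hex
    obtain ⟨W, hWd⟩ : ∃ W, W = C₀ * S ^ κ := ⟨_, rfl⟩
    rw [← hWd] at hex
    have hcount : {e ∈ Exceptional | e.1 ≤ N ∧ a * (e.1 : ℤ) + b * (e.2 : ℤ) = d}.ncard ≤
        (W + 1) ^ 3 * (6 * W) := by
      apply ncard_le (N := N) (fun e he => ⟨he.2.1, he.1.1.2.1⟩)
      intro F hF
      apply total (W := W) F (fun x y z e => Sol e.1 e.2 x y z) (fun e he => hex e (hF e he).1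
        (hF e he).2.1)
      intro x y z hx hy hz hxy G hG hR
      refine (line_card (x := x) (y := y) (z := z) hab hxy G (c := d) ?_).trans (by omega)
      intro e he
      have := hF e (hG he)
      exact ⟨this.1.1.1, this.1.1.2.1, hR e he, this.2.2⟩
    have hW1 : W + 1 ≤ c * S ^ k := by rw [hWd]; exact hW S (by omega)
    have h1 : (W + 1) ^ 3 * (6 * W) ≤ 6 * (c * S ^ k) ^ 4 := by
      calc (W + 1) ^ 3 * (6 * W) ≤ (c * S ^ k) ^ 3 * (6 * (c * S ^ k)) :=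
            Nat.mul_le_mul (Nat.pow_le_pow_left hW1 3) (by omega)
        _ = _ := by ring
    have h2 : (({e ∈ Exceptional | e.1 ≤ N ∧ a * (e.1 : ℤ) + b * (e.2 : ℤ) = d}.ncard : ℕ) : ℝ) ≤
        6 * ((c : ℝ) * (S : ℝ) ^ k) ^ 4 := by exact_mod_cast hcount.trans h1
    have h3 := hfin N hN S hS 4 (by norm_num)
    have hpos : 0 ≤ ((c : ℝ) * (S : ℝ) ^ k) ^ 4 := by positivity
    linarith
  · -- the box
    intro N hN
    obtain ⟨S, hS⟩ : ∃ S, S = 2 * Nat.log 2 N + 3 := ⟨_, rfl⟩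
    have hex := hexc N hN
    have hsz := hsize N hN
    rw [← hS] at hex hsz
    obtain ⟨W, hWd⟩ : ∃ W, W = C₀ * S ^ κ := ⟨_, rfl⟩
    rw [← hWd] at hex
    obtain ⟨L, hL⟩ : ∃ L, L = W + S * W + S + 2 := ⟨_, rfl⟩
    have hN0 : (0 : ℝ) < N := by
      have : 0 < N := by omega
      exact_mod_cast this
    have hN1 : (1 : ℝ) ≤ N := by
      have : 1 ≤ N := by omega
      exact_mod_cast this
    obtain ⟨q, hq⟩ : ∃ q : ℝ, q = (N : ℝ) ^ ((2 : ℝ) / 3) := ⟨_, rfl⟩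
    have hq1 : 1 ≤ q := by rw [hq]; exact Real.one_le_rpow hN1 (by norm_num)
    have hq3 : q ^ 3 = (N : ℝ) ^ 2 := by
      rw [hq, ← Real.rpow_natCast, ← Real.rpow_mul hN0.le, ← Real.rpow_natCast]
      norm_num
    have hqN : q ≤ N := by
      rw [hq]
      calc (N : ℝ) ^ ((2 : ℝ) / 3) ≤ (N : ℝ) ^ (1 : ℝ) :=
            Real.rpow_le_rpow_of_exponent_le hN1 (by norm_num)
        _ = N := Real.rpow_one _
    obtain ⟨Q, hQ⟩ : ∃ Q : ℕ, Q = ⌈2 * q⌉₊ := ⟨_, rfl⟩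
    have hQ1 : 2 * q ≤ Q := by rw [hQ]; exact Nat.le_ceil _
    have hQ2 : (Q : ℝ) ≤ 3 * q := by
      have := (Nat.ceil_lt_add_one (by positivity : 0 ≤ 2 * q)).le
      rw [← hQ] at this
      linarith
    have hQ3 : 2 * N ^ 2 ≤ Q ^ 3 := by
      have h1 : (2 : ℝ) * (N : ℝ) ^ 2 ≤ (Q : ℝ) ^ 3 := by
        calc (2 : ℝ) * (N : ℝ) ^ 2 ≤ 8 * q ^ 3 := by rw [hq3]; nlinarith
          _ = (2 * q) ^ 3 := by ring
          _ ≤ (Q : ℝ) ^ 3 := pow_le_pow_left₀ (by positivity) hQ1 3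
      exact_mod_cast h1
    have hQS : Q ≤ 2 ^ (S + 1) := by
      have h1 : (Q : ℝ) ≤ 2 * (2 * (N : ℝ) ^ 2) := by nlinarith
      have h2 : Q ≤ 2 * (2 * N ^ 2) := by exact_mod_cast h1
      rw [pow_succ]
      omega
    have hcount : {e ∈ Exceptional | e.1 ≤ N}.ncard ≤
        (W + 1) ^ 3 * (L * ((6 * W) ^ 2 * (8 * (Q + L + 2) * (Nat.log 2 (Q + L + 2) + 1)))) := by
      apply ncard_le (N := N) (fun e he => ⟨he.2, he.1.1.2.1⟩)
      intro F hF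
      apply total (W := W) F (fun x y z e => Sol e.1 e.2 x y z) (fun e he => hex e (hF e he).1
        (hF e he).2)
      intro x y z hx hy hz hxy G hG hR
      rw [hL]
      refine fixed_card hxy hsz hx hy hz hQ3 G ?_
      intro e he
      have := hF e (hG he)
      exact ⟨this.1.1.1, this.1.1.2.1, this.2, hR e he⟩
    have hS3 : 3 ≤ S := by omega
    have hW1 : W + 1 ≤ c * S ^ k := by rw [hWd]; exact hW S hS3
    have hSk : S ≤ S ^ k := Nat.le_self_pow (by omega) _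
    have hSW : S * W = C₀ * S ^ k := by rw [hWd, hk, pow_succ]; ring
    have hWk : W ≤ C₀ * S ^ k := by
      rw [← hSW]
      exact Nat.le_mul_of_pos_left _ (by omega)
    have hL1 : L + 6 ≤ (c - 4) * S ^ k := by
      have e1 : (c - 4) * S ^ k = 2 * (C₀ * S ^ k) + 4 * S ^ k := by
        have : c - 4 = 2 * C₀ + 4 := by omega
        rw [this]; ring
      rw [e1, hL, hSW]
      omega
    have hLc : L ≤ c * S ^ k := by
      have : (c - 4) * S ^ k ≤ c * S ^ k := Nat.mul_le_mul_right _ (by omega)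
      omega
    have hlog : Nat.log 2 (Q + L + 2) + 1 ≤ c * S ^ k := by
      have h1 : Q + L + 2 < 2 ^ (S + L + 3) := by
        have h2 : L < 2 ^ L := Nat.lt_two_pow_self
        have h3 : (2 : ℕ) ^ (S + L + 3) = 4 * (2 ^ (S + 1) * 2 ^ L) := by
          rw [← pow_add, show S + L + 3 = (S + 1 + L) + 2 by ring, pow_add]; ring
        have h4 : 1 ≤ (2 : ℕ) ^ (S + 1) := Nat.one_le_two_pow
        have h5 : 1 ≤ (2 : ℕ) ^ L := Nat.one_le_two_pow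
        have h6 : (2 : ℕ) ^ (S + 1) ≤ 2 ^ (S + 1) * 2 ^ L := Nat.le_mul_of_pos_right _ h5
        have h7 : (2 : ℕ) ^ L ≤ 2 ^ (S + 1) * 2 ^ L := Nat.le_mul_of_pos_left _ h4
        have h8 : 4 ≤ (2 : ℕ) ^ (S + 1) := by
          calc 4 = 2 ^ 2 := by norm_num
            _ ≤ 2 ^ (S + 1) := Nat.pow_le_pow_right (by norm_num) (by omega)
        omega
      have h2 := Nat.log_lt_of_lt_pow (by omega : Q + L + 2 ≠ 0) h1
      have e1 : c * S ^ k = (c - 4) * S ^ k + 4 * S ^ k := by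
        rw [← add_mul]; congr 1; omega
      omega
    have hQL : ((Q + L + 2 : ℕ) : ℝ) ≤ ((c : ℝ) * (S : ℝ) ^ k) * q := by
      have h1 : ((L + 6 : ℕ) : ℝ) ≤ (((c - 4) * S ^ k : ℕ) : ℝ) := by exact_mod_cast hL1
      have h2 : (((c - 4) * S ^ k : ℕ) : ℝ) ≤ ((c : ℝ) * (S : ℝ) ^ k) := by
        have : (c - 4) * S ^ k ≤ c * S ^ k := Nat.mul_le_mul_right _ (by omega)
        exact_mod_cast this
      have h3 := h1.trans h2
      push_cast at h3 ⊢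
      have h4 : (Q : ℝ) + L + 2 ≤ (L + 6) * q := by
        have hL0 : (0 : ℝ) ≤ L := Nat.cast_nonneg _
        nlinarith
      exact h4.trans (mul_le_mul_of_nonneg_right h3 (by linarith))
    have hreal : (((W + 1) ^ 3 * (L * ((6 * W) ^ 2 * (8 * (Q + L + 2) *
        (Nat.log 2 (Q + L + 2) + 1)))) : ℕ) : ℝ) ≤ 288 * ((c : ℝ) * (S : ℝ) ^ k) ^ 8 * q := by
      obtain ⟨X, hX⟩ : ∃ X : ℝ, X = (c : ℝ) * (S : ℝ) ^ k := ⟨_, rfl⟩
      rw [← hX] at hQL ⊢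
      have hX0 : 0 ≤ X := by rw [hX]; positivity
      have a1 : ((W + 1 : ℕ) : ℝ) ≤ X := by rw [hX]; exact_mod_cast hW1
      have a2 : ((W : ℕ) : ℝ) ≤ X := by
        have : ((W + 1 : ℕ) : ℝ) = W + 1 := by push_cast; ring
        linarith
      have a3 : ((L : ℕ) : ℝ) ≤ X := by rw [hX]; exact_mod_cast hLc
      have a4 : ((Nat.log 2 (Q + L + 2) + 1 : ℕ) : ℝ) ≤ X := by rw [hX]; exact_mod_cast hlog
      have e1 : (((W + 1) ^ 3 * (L * ((6 * W) ^ 2 * (8 * (Q + L + 2) *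
        (Nat.log 2 (Q + L + 2) + 1)))) : ℕ) : ℝ) = ((W + 1 : ℕ) : ℝ) ^ 3 * ((L : ℝ) *
        ((6 * (W : ℝ)) ^ 2 * (8 * ((Q + L + 2 : ℕ) : ℝ) *
          ((Nat.log 2 (Q + L + 2) + 1 : ℕ) : ℝ)))) := by
        push_cast; ring
      rw [e1]
      calc ((W + 1 : ℕ) : ℝ) ^ 3 * ((L : ℝ) * ((6 * (W : ℝ)) ^ 2 * (8 * ((Q + L + 2 : ℕ) : ℝ) *
          ((Nat.log 2 (Q + L + 2) + 1 : ℕ) : ℝ)))) ≤
          X ^ 3 * (X * ((6 * X) ^ 2 * (8 * (X * q) * X))) := by gcongr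
        _ = 288 * X ^ 8 * q := by ring
    have h1 := hfin N hN S hS 8 le_rfl
    have h2 : (({e ∈ Exceptional | e.1 ≤ N}.ncard : ℕ) : ℝ) ≤
        288 * ((c : ℝ) * (S : ℝ) ^ k) ^ 8 * q := le_trans (by exact_mod_cast hcount) hreal
    calc (({e ∈ Exceptional | e.1 ≤ N}.ncard : ℕ) : ℝ) ≤
        288 * ((c : ℝ) * (S : ℝ) ^ k) ^ 8 * q := h2
      _ ≤ (C * Real.log N ^ K) * q := mul_le_mul_of_nonneg_right h1 (by linarith)
      _ = C * (N : ℝ) ^ ((2 : ℝ) / 3) * Real.log N ^ K := by rw [hq]; ring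

end Pool.Agent.W5h37.Miy.Final
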