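import Mathlib

/-!
# The shuffled Pythagorean equation `(f² + g²)^x + (2fg)^y = (f² - g²)^z`: elementary facts
-/

set_option autoImplicit false

namespace Pool.Agent.W5h37.Miy

/-- `(x, y, z)` solves the shuffled equation of the pair `(f, g)` -/
def Sol (f g x y z : ℕ) : Prop :=
  0 < x ∧ 0 < y ∧ 0 < z ∧ (f ^ 2 + g ^ 2) ^ x + (2 * f * g) ^ y = (f ^ 2 - g ^ 2) ^ z

theorem Sol.lt {f g x y z : ℕ} (h : Sol f g x y z) (hg : 0 < g) (hgf : g < f) : x < z := by
  obtain ⟨hx, hy, hz, he⟩ := h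
  by_contra hc
  push Not at hc
  have hB : 0 < (2 * f * g) ^ y := by
    have : 0 < f := by omega
    positivity
  have h1 : (f ^ 2 - g ^ 2) ^ z ≤ (f ^ 2 + g ^ 2) ^ z := Nat.pow_le_pow_left (by omega) _
  have h2 : (f ^ 2 + g ^ 2) ^ z ≤ (f ^ 2 + g ^ 2) ^ x :=
    Nat.pow_le_pow_right (by positivity) hc
  omega

theorem facts {f g : ℕ} (hg : 0 < g) (hgf : g < f) (hcop : Nat.Coprime f g) (hodd : Odd (f + g)) :
    f ^ 2 - g ^ 2 = (f - g) * (f + g) ∧ 3 ≤ f + g ∧ Odd (f - g) ∧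
    Nat.Coprime (f ^ 2 - g ^ 2) (2 * f * g) ∧ Nat.Coprime (f ^ 2 + g ^ 2) (2 * f * g) ∧
    Nat.Coprime (f ^ 2 + g ^ 2) (f ^ 2 - g ^ 2) ∧
    (f ^ 2 - g ^ 2) ^ 2 + (2 * f * g) ^ 2 = (f ^ 2 + g ^ 2) ^ 2 ∧
    f ^ 2 + g ^ 2 + 2 * f * g = (f + g) ^ 2 ∧ ¬ 2 ∣ (f ^ 2 - g ^ 2) ∧ ¬ 2 ∣ (f ^ 2 + g ^ 2) := by
  have hle : g ^ 2 ≤ f ^ 2 := Nat.pow_le_pow_left hgf.le 2
  have e1 : f ^ 2 - g ^ 2 = (f - g) * (f + g) := by rw [Nat.sq_sub_sq, mul_comm]
  obtain ⟨u, rfl⟩ : ∃ u, f = g + u := ⟨f - g, by omega⟩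
  have hu : g + u - g = u := by omega
  have hodd' : Odd u := by
    have : g + u + g = u + 2 * g := by ring
    rw [this] at hodd
    rcases Nat.even_or_odd u with h | h
    · exact absurd (h.add (even_two_mul g)) (Nat.not_even_iff_odd.2 hodd)
    · exact h
  have hpar : ¬ 2 ∣ ((g + u) ^ 2 - g ^ 2) := by
    rw [e1, hu]
    intro h
    rcases (Nat.prime_two.dvd_mul).1 h with h | h
    · exact (Nat.not_even_iff_odd.2 hodd') (even_iff_two_dvd.2 h)
    · exact (Nat.not_even_iff_odd.2 hodd) (even_iff_two_dvd.2 h)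
  have hpar' : ¬ 2 ∣ ((g + u) ^ 2 + g ^ 2) := by
    intro h
    apply hpar
    have h2 : (g + u) ^ 2 - g ^ 2 = ((g + u) ^ 2 + g ^ 2) - 2 * g ^ 2 := by omega
    rw [h2]
    exact (Nat.dvd_sub h (Dvd.intro _ rfl))
  -- coprimality
  have key : ∀ p : ℕ, p.Prime → p ∣ (g + u) → p ∣ g → False := fun p hp h1 h2 =>
    hp.one_lt.ne' (Nat.eq_one_of_dvd_coprimes hcop h1 h2)
  have c1 : Nat.Coprime ((g + u) ^ 2 - g ^ 2) (2 * (g + u) * g) := by
    apply Nat.coprime_of_dvd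
    intro p hp h1 h2
    rcases (hp.dvd_mul).1 h2 with h2 | h2
    · rcases (hp.dvd_mul).1 h2 with h2 | h2
      · have : p = 2 := (Nat.prime_dvd_prime_iff_eq hp Nat.prime_two).1 h2
        subst this
        exact hpar h1
      · apply key p hp h2
        have h3 : p ∣ (g + u) ^ 2 - ((g + u) ^ 2 - g ^ 2) :=
          Nat.dvd_sub (dvd_pow h2 (by norm_num)) h1
        rw [show (g + u) ^ 2 - ((g + u) ^ 2 - g ^ 2) = g ^ 2 by omega] at h3
        exact hp.dvd_of_dvd_pow h3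
    · apply key p hp _ h2
      have h3 : p ∣ ((g + u) ^ 2 - g ^ 2) + g ^ 2 := dvd_add h1 (dvd_pow h2 (by norm_num))
      rw [show ((g + u) ^ 2 - g ^ 2) + g ^ 2 = (g + u) ^ 2 by omega] at h3
      exact hp.dvd_of_dvd_pow h3
  have c2 : Nat.Coprime ((g + u) ^ 2 + g ^ 2) (2 * (g + u) * g) := by
    apply Nat.coprime_of_dvd
    intro p hp h1 h2
    rcases (hp.dvd_mul).1 h2 with h2 | h2
    · rcases (hp.dvd_mul).1 h2 with h2 | h2
      · have : p = 2 := (Nat.prime_dvd_prime_iff_eq hp Nat.prime_two).1 h2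
        subst this
        exact hpar' h1
      · apply key p hp h2
        have h3 : p ∣ ((g + u) ^ 2 + g ^ 2) - (g + u) ^ 2 :=
          Nat.dvd_sub h1 (dvd_pow h2 (by norm_num))
        rw [show ((g + u) ^ 2 + g ^ 2) - (g + u) ^ 2 = g ^ 2 by omega] at h3
        exact hp.dvd_of_dvd_pow h3
    · apply key p hp _ h2
      have h3 : p ∣ ((g + u) ^ 2 + g ^ 2) - g ^ 2 := Nat.dvd_sub h1 (dvd_pow h2 (by norm_num))
      rw [show ((g + u) ^ 2 + g ^ 2) - g ^ 2 = (g + u) ^ 2 by omega] at h3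
      exact hp.dvd_of_dvd_pow h3
  have pyth : ((g + u) ^ 2 - g ^ 2) ^ 2 + (2 * (g + u) * g) ^ 2 = ((g + u) ^ 2 + g ^ 2) ^ 2 := by
    zify [hle]
    ring
  have c3 : Nat.Coprime ((g + u) ^ 2 + g ^ 2) ((g + u) ^ 2 - g ^ 2) := by
    apply Nat.coprime_of_dvd
    intro p hp h1 h2
    have h3 : p ∣ (2 * (g + u) * g) ^ 2 := by
      have h4 : (2 * (g + u) * g) ^ 2 = ((g + u) ^ 2 + g ^ 2) ^ 2 - ((g + u) ^ 2 - g ^ 2) ^ 2 := by
        omega
      rw [h4]
      exact Nat.dvd_sub (dvd_pow h1 (by norm_num)) (dvd_pow h2 (by norm_num))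
    exact hp.one_lt.ne' (Nat.eq_one_of_dvd_coprimes c1 h2 (hp.dvd_of_dvd_pow h3))
  refine ⟨e1, ?_, by rw [hu]; exact hodd', c1, c2, c3, pyth, by ring, hpar, hpar'⟩
  have : 0 < u := hodd'.pos
  omega

theorem three_pow_ge (k : ℕ) : k + 3 ≤ 3 ^ (k + 1) := by
  induction k with
  | zero => norm_num
  | succ k ih => rw [pow_succ]; omega

/-- the case `x = y` -/
theorem eq_case {f g x z : ℕ} (hg : 0 < g) (hgf : g < f) (hcop : Nat.Coprime f g)
    (hodd : Odd (f + g)) (h : Sol f g x x z) : f = g + 1 ∧ x = 1 ∧ z = 2 := by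
  have hxz := h.lt hg hgf
  obtain ⟨hx, -, hz, he⟩ := h
  obtain ⟨e1, hv, hu, c1, c2, c3, pyth, e2, hpar, hpar'⟩ := facts hg hgf hcop hodd
  obtain ⟨A, hA⟩ : ∃ A, A = f ^ 2 - g ^ 2 := ⟨_, rfl⟩
  obtain ⟨B, hB⟩ : ∃ B, B = 2 * f * g := ⟨_, rfl⟩
  obtain ⟨D, hD⟩ : ∃ D, D = f ^ 2 + g ^ 2 := ⟨_, rfl⟩
  obtain ⟨u, hu'⟩ : ∃ u, u = f - g := ⟨_, rfl⟩
  obtain ⟨v, hv'⟩ : ∃ v, v = f + g := ⟨_, rfl⟩
  rw [← hA, ← hu', ← hv'] at e1
  rw [← hv'] at hv hodd e2
  rw [← hu'] at hu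
  rw [← hA, ← hB] at c1
  rw [← hD, ← hB] at c2
  rw [← hA, ← hD] at c3
  rw [← hA, ← hB, ← hD] at pyth he
  rw [← hD, ← hB] at e2
  rw [← hA] at hpar
  have hu0 : 0 < u := hu.pos
  rcases Nat.even_or_odd x with hxe | hxo
  · exfalso
    obtain ⟨w, hw⟩ := hxe
    have hw' : x = 2 * w := by omega
    have hdvd : (A : ℤ) ∣ (D : ℤ) ^ x - (B : ℤ) ^ x := by
      rw [hw', pow_mul, pow_mul]
      refine dvd_trans ?_ (sub_dvd_pow_sub_pow _ _ _)
      have : ((D : ℤ)) ^ 2 - (B : ℤ) ^ 2 = A * A := by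
        have h1 : (((A ^ 2 + B ^ 2 : ℕ)) : ℤ) = ((D ^ 2 : ℕ) : ℤ) := by rw [pyth]
        push_cast at h1
        linear_combination -h1
      rw [this]
      exact Dvd.intro _ rfl
    have hdvd2 : (A : ℤ) ∣ (D : ℤ) ^ x + (B : ℤ) ^ x := by
      have h1 : (((D ^ x + B ^ x : ℕ)) : ℤ) = ((A ^ z : ℕ) : ℤ) := by rw [he]
      push_cast at h1
      rw [h1]
      exact dvd_pow_self _ (by omega)
    have hdvd3 : (A : ℤ) ∣ 2 * (B : ℤ) ^ x := by
      have := dvd_sub hdvd2 hdvd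
      have e : (D : ℤ) ^ x + (B : ℤ) ^ x - ((D : ℤ) ^ x - (B : ℤ) ^ x) = 2 * (B : ℤ) ^ x := by ring
      rwa [e] at this
    have hdvd4 : A ∣ 2 * B ^ x := by exact_mod_cast hdvd3
    have hA1 : A = 1 := by
      have h1 : Nat.Coprime A (2 * B ^ x) := by
        apply Nat.Coprime.mul_right
        · exact ((Nat.Prime.coprime_iff_not_dvd Nat.prime_two).2 hpar).symm
        · exact Nat.Coprime.pow_right _ c1
      exact Nat.eq_one_of_dvd_coprimes h1 dvd_rfl hdvd4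
    rw [hA1] at e1
    nlinarith
  · rcases Nat.lt_or_ge z 3 with hz3 | hz3
    · have hx1 : x = 1 := by omega
      have hz2 : z = 2 := by omega
      subst hx1 hz2
      refine ⟨?_, rfl, rfl⟩
      rw [pow_one, pow_one, e1] at he
      have h1 : v ^ 2 = (u * v) ^ 2 := by rw [← he, ← e2]
      have h2 : v = u * v := by
        exact (Nat.pow_left_injective (by norm_num : (2 : ℕ) ≠ 0)) h1
      have h3 : u = 1 := by
        have : 1 * v = u * v := by rw [one_mul]; exact h2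
        exact (Nat.eq_of_mul_eq_mul_right (by omega) this).symm
      omega
    · exfalso
      obtain ⟨k, rfl⟩ : ∃ k, z = k + 3 := ⟨z - 3, by omega⟩
      have hdvd : v ^ (k + 1) ∣ x := by
        rw [← Nat.factorization_prime_le_iff_dvd (by positivity) (by omega)]
        intro p hp
        rw [Nat.factorization_pow]
        simp only [Finsupp.smul_apply, smul_eq_mul]
        by_cases hpv : p ∣ v
        · have : Fact p.Prime := ⟨hp⟩
          have hp2 : Odd p := by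
            rcases hp.eq_two_or_odd' with h | h
            · subst h
              exact absurd (even_iff_two_dvd.2 hpv) (Nat.not_even_iff_odd.2 hodd)
            · exact h
          have hpA : p ∣ A := by rw [e1]; exact Dvd.dvd.mul_left hpv _
          have hpD : ¬ p ∣ D := fun h5 =>
            hp.one_lt.ne' (Nat.eq_one_of_dvd_coprimes c3 h5 hpA)
          have e3 : padicValNat p (D ^ x + B ^ x) = padicValNat p (D + B) + padicValNat p x :=
            padicValNat.pow_add_pow hp2 (by rw [e2]; exact dvd_pow hpv (by norm_num)) hpD hxo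
          rw [he, e2, e1, mul_pow, padicValNat.mul (by positivity) (by positivity),
            padicValNat.pow, padicValNat.pow, padicValNat.pow] at e3
          rw [Nat.factorization_def _ hp, Nat.factorization_def _ hp]
          have e4 : (k + 3) * padicValNat p v = (k + 1) * padicValNat p v + 2 * padicValNat p v := by
            ring
          omega
        · rw [Nat.factorization_eq_zero_of_not_dvd hpv, mul_zero]
          exact Nat.zero_le _
      have h1 : v ^ (k + 1) ≤ x := Nat.le_of_dvd hx hdvd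
      have h2 : 3 ^ (k + 1) ≤ v ^ (k + 1) := Nat.pow_le_pow_left hv _
      have h3 := three_pow_ge k
      omega

/-- for a fixed `f` the second coordinate is determined by the exponents -/
theorem g_unique {f g g' x y z : ℕ} (hx : 0 < x)
    (he : (f ^ 2 + g ^ 2) ^ x + (2 * f * g) ^ y = (f ^ 2 - g ^ 2) ^ z)
    (he' : (f ^ 2 + g' ^ 2) ^ x + (2 * f * g') ^ y = (f ^ 2 - g' ^ 2) ^ z) : ¬ g < g' := by
  intro hlt
  have h1 : (f ^ 2 + g ^ 2) ^ x < (f ^ 2 + g' ^ 2) ^ x := by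
    apply Nat.pow_lt_pow_left _ hx.ne'
    have := Nat.pow_lt_pow_left hlt (two_ne_zero)
    omega
  have h2 : (2 * f * g) ^ y ≤ (2 * f * g') ^ y := by
    apply Nat.pow_le_pow_left
    exact Nat.mul_le_mul_left _ hlt.le
  have h3 : (f ^ 2 - g' ^ 2) ^ z ≤ (f ^ 2 - g ^ 2) ^ z := by
    apply Nat.pow_le_pow_left
    have := Nat.pow_le_pow_left hlt.le 2
    omega
  omega

end Pool.Agent.W5h37.Miy
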