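import Pool.Agent.W5h37.Miy.Line

/-!
# The determinant method of degree one for the shuffled equation
-/

set_option autoImplicit false

namespace Pool.Agent.W5h37.Miy

open Polynomial Finset

/-- the equation -/
def FF (x y z : ℕ) (f g : ℤ) : ℤ := (f ^ 2 + g ^ 2) ^ x + (2 * f * g) ^ y - (f ^ 2 - g ^ 2) ^ z

/-- the derivative in `f` -/
def Fa (x y z : ℕ) (f g : ℤ) : ℤ :=
  x * (f ^ 2 + g ^ 2) ^ (x - 1) * (2 * f) + y * (2 * f * g) ^ (y - 1) * (2 * g) -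
    z * (f ^ 2 - g ^ 2) ^ (z - 1) * (2 * f)

/-- the derivative in `g` -/
def Fb (x y z : ℕ) (f g : ℤ) : ℤ :=
  x * (f ^ 2 + g ^ 2) ^ (x - 1) * (2 * g) + y * (2 * f * g) ^ (y - 1) * (2 * f) +
    z * (f ^ 2 - g ^ 2) ^ (z - 1) * (2 * g)

theorem pow_expand (p X Y Z : ℤ) (n : ℕ) (h : p ^ 2 ∣ Z - (X + p * Y)) :
    p ^ 2 ∣ Z ^ n - (X ^ n + n * X ^ (n - 1) * (p * Y)) := by
  have h1 : p ^ 2 ∣ Z ^ n - (X + p * Y) ^ n := h.trans (sub_dvd_pow_sub_pow _ _ _)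
  obtain ⟨k, hk⟩ := Polynomial.powAddExpansion X (p * Y) n
  have h2 : Z ^ n - (X ^ n + n * X ^ (n - 1) * (p * Y)) =
      (Z ^ n - (X + p * Y) ^ n) + p ^ 2 * (k * Y ^ 2) := by
    rw [hk]; ring
  rw [h2]
  exact dvd_add h1 (Dvd.intro _ rfl)

theorem expand (x y z : ℕ) (p f g a b : ℤ) : p ^ 2 ∣ FF x y z (f + p * a) (g + p * b) -
    (FF x y z f g + p * (a * Fa x y z f g + b * Fb x y z f g)) := by
  have h1 := pow_expand p (f ^ 2 + g ^ 2) (2 * f * a + 2 * g * b)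
    ((f + p * a) ^ 2 + (g + p * b) ^ 2) x ⟨a ^ 2 + b ^ 2, by ring⟩
  have h2 := pow_expand p (2 * f * g) (2 * (f * b + g * a))
    (2 * (f + p * a) * (g + p * b)) y ⟨2 * a * b, by ring⟩
  have h3 := pow_expand p (f ^ 2 - g ^ 2) (2 * f * a - 2 * g * b)
    ((f + p * a) ^ 2 - (g + p * b) ^ 2) z ⟨a ^ 2 - b ^ 2, by ring⟩
  have h4 := dvd_sub (dvd_add h1 h2) h3
  refine h4.trans (dvd_of_eq ?_)
  unfold FF Fa Fb
  ring

theorem det3 {x y z : ℕ} {p : ℕ} (hp : p.Prime) {f₁ g₁ f₂ g₂ f₃ g₃ : ℤ}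
    (h1 : FF x y z f₁ g₁ = 0) (h2 : FF x y z f₂ g₂ = 0) (h3 : FF x y z f₃ g₃ = 0)
    (hns : ¬ (p : ℤ) ∣ Fb x y z f₁ g₁)
    (e2 : (p : ℤ) ∣ f₂ - f₁) (e2' : (p : ℤ) ∣ g₂ - g₁)
    (e3 : (p : ℤ) ∣ f₃ - f₁) (e3' : (p : ℤ) ∣ g₃ - g₁) :
    (p : ℤ) ^ 3 ∣ (f₂ - f₁) * (g₃ - g₁) - (f₃ - f₁) * (g₂ - g₁) := by
  obtain ⟨a₂, ha₂⟩ := e2
  obtain ⟨b₂, hb₂⟩ := e2'
  obtain ⟨a₃, ha₃⟩ := e3
  obtain ⟨b₃, hb₃⟩ := e3'
  have hp0 : (p : ℤ) ≠ 0 := by exact_mod_cast hp.ne_zero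
  have hpp : Prime (p : ℤ) := Nat.prime_iff_prime_int.1 hp
  have key : ∀ {f g a b : ℤ}, FF x y z f g = 0 → f - f₁ = p * a → g - g₁ = p * b →
      (p : ℤ) ∣ a * Fa x y z f₁ g₁ + b * Fb x y z f₁ g₁ := by
    intro f g a b h ha hb
    have hf : f = f₁ + p * a := by linarith
    have hg : g = g₁ + p * b := by linarith
    have h4 := expand x y z p f₁ g₁ a b
    rw [← hf, ← hg, h, h1, zero_add, zero_sub, dvd_neg, pow_two] at h4
    exact (mul_dvd_mul_iff_left hp0).1 h4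
  have k2 := key h2 ha₂ hb₂
  have k3 := key h3 ha₃ hb₃
  have k4 : (p : ℤ) ∣ (a₂ * b₃ - a₃ * b₂) * Fb x y z f₁ g₁ := by
    have h5 := dvd_sub (Dvd.dvd.mul_left k3 a₂) (Dvd.dvd.mul_left k2 a₃)
    refine h5.trans (dvd_of_eq ?_)
    ring
  have k5 : (p : ℤ) ∣ a₂ * b₃ - a₃ * b₂ := (hpp.dvd_or_dvd k4).resolve_right hns
  obtain ⟨k, hk⟩ := k5
  refine ⟨k, ?_⟩
  rw [ha₂, hb₂, ha₃, hb₃]
  linear_combination (p : ℤ) ^ 2 * hk

/-- the fibre over `s` modulo `p` -/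
noncomputable def RP (p : ℕ) (x y z : ℕ) (s : ZMod p) : (ZMod p)[X] :=
  (C (s ^ 2) + X ^ 2) ^ x + (C (2 * s) * X) ^ y - (C (s ^ 2) - X ^ 2) ^ z

theorem RP_deg (p : ℕ) (x y z : ℕ) (s : ZMod p) : (RP p x y z s).natDegree ≤ 2 * (x + y + z) := by
  have m1 : (C (s ^ 2) + X ^ 2 : (ZMod p)[X]).natDegree ≤ 2 := by compute_degree
  have m2 : (C (s ^ 2) - X ^ 2 : (ZMod p)[X]).natDegree ≤ 2 := by compute_degree
  have m3 : (C (2 * s) * X : (ZMod p)[X]).natDegree ≤ 1 := by compute_degree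
  have n1 : ((C (s ^ 2) + X ^ 2 : (ZMod p)[X]) ^ x).natDegree ≤ 2 * (x + y + z) :=
    (natDegree_pow_le_of_le x m1).trans (by omega)
  have n2 : ((C (2 * s) * X : (ZMod p)[X]) ^ y).natDegree ≤ 2 * (x + y + z) :=
    (natDegree_pow_le_of_le y m3).trans (by omega)
  have n3 : ((C (s ^ 2) - X ^ 2 : (ZMod p)[X]) ^ z).natDegree ≤ 2 * (x + y + z) :=
    (natDegree_pow_le_of_le z m2).trans (by omega)
  have k1 := natDegree_add_le_of_le n1 n2
  rw [max_self] at k1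
  have k2 := natDegree_sub_le_of_le k1 n3
  rw [max_self] at k2
  exact k2

theorem RP_eval (p : ℕ) (x y z : ℕ) (f g : ℤ) : (RP p x y z (f : ZMod p)).eval (g : ZMod p) =
    ((FF x y z f g : ℤ) : ZMod p) := by
  simp [RP, FF]

theorem RP_deriv (p : ℕ) (x y z : ℕ) (f g : ℤ) :
    (derivative (RP p x y z (f : ZMod p))).eval (g : ZMod p) = ((Fb x y z f g : ℤ) : ZMod p) := by
  simp [RP, Fb, derivative_pow]

/-- **The solutions with fixed exponents which are nonsingular modulo `p`.** -/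
theorem class_card {x y z : ℕ} (hxy : x ≠ y) {p N : ℕ} (hp : p.Prime) (hpN : 2 * N ^ 2 ≤ p ^ 3)
    (E : Finset (ℕ × ℕ)) (hE : ∀ e ∈ E, 0 < e.2 ∧ e.2 < e.1 ∧ e.1 ≤ N ∧ Sol e.1 e.2 x y z ∧
      ¬ (p : ℤ) ∣ Fb x y z (e.1 : ℤ) (e.2 : ℤ)) : E.card ≤ (2 * (x + y + z)) ^ 2 * p := by
  classical
  have : Fact p.Prime := ⟨hp⟩
  obtain ⟨r, hr⟩ : ∃ r : ℕ × ℕ → ZMod p × ZMod p,
      r = fun e => ((e.1 : ZMod p), (e.2 : ZMod p)) := ⟨_, rfl⟩
  have hFF : ∀ e ∈ E, FF x y z (e.1 : ℤ) (e.2 : ℤ) = 0 := by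
    intro e he
    obtain ⟨hg, hgf, -, hs, -⟩ := hE e he
    have hle : e.2 ^ 2 ≤ e.1 ^ 2 := Nat.pow_le_pow_left hgf.le 2
    have h2 : ((((e.1 ^ 2 + e.2 ^ 2) ^ x + (2 * e.1 * e.2) ^ y : ℕ)) : ℤ) =
        (((e.1 ^ 2 - e.2 ^ 2) ^ z : ℕ) : ℤ) := by rw [hs.2.2.2]
    push_cast [Nat.cast_sub hle] at h2
    unfold FF
    linarith
  -- the number of classes
  have himg : (E.image r).card ≤ p * (2 * (x + y + z)) := by
    have hsub : E.image r ⊆ (univ : Finset (ZMod p)).biUnion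
        (fun s => ((RP p x y z s).roots.toFinset).image (fun t => (s, t))) := by
      intro c hc
      rw [mem_image] at hc
      obtain ⟨e, he, rfl⟩ := hc
      rw [mem_biUnion]
      refine ⟨(e.1 : ZMod p), mem_univ _, ?_⟩
      rw [mem_image]
      refine ⟨(e.2 : ZMod p), ?_, by rw [hr]⟩
      rw [Multiset.mem_toFinset]
      have hne : RP p x y z (e.1 : ZMod p) ≠ 0 := by
        intro h0
        have h1 := RP_deriv p x y z (e.1 : ℤ) (e.2 : ℤ)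
        have h2 : (((e.1 : ℤ)) : ZMod p) = (e.1 : ZMod p) := by push_cast; rfl
        rw [h2, h0, derivative_zero, eval_zero] at h1
        exact (hE e he).2.2.2.2 ((ZMod.intCast_zmod_eq_zero_iff_dvd _ _).1 h1.symm)
      rw [mem_roots hne, IsRoot.def]
      have h1 := RP_eval p x y z (e.1 : ℤ) (e.2 : ℤ)
      rw [hFF e he] at h1
      push_cast at h1
      exact h1
    calc (E.image r).card ≤ _ := card_le_card hsub
      _ ≤ ∑ s : ZMod p, (((RP p x y z s).roots.toFinset).image (fun t => (s, t))).card :=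
        card_biUnion_le
      _ ≤ ∑ _s : ZMod p, 2 * (x + y + z) := by
        apply sum_le_sum
        intro s _
        exact card_image_le.trans ((Multiset.toFinset_card_le _).trans
          ((card_roots' _).trans (RP_deg _ _ _ _ _)))
      _ = p * (2 * (x + y + z)) := by
        rw [sum_const, card_univ, ZMod.card, smul_eq_mul]
  -- the points in one class
  have hfib : ∀ c ∈ E.image r, (E.filter (fun e => r e = c)).card ≤ 2 * (x + y + z) := by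
    intro c _
    obtain ⟨G, hG⟩ : ∃ G, G = E.filter (fun e => r e = c) := ⟨_, rfl⟩
    rw [← hG]
    have hGE : ∀ e ∈ G, e ∈ E ∧ r e = c := by
      intro e he
      rw [hG, mem_filter] at he
      exact he
    rcases Nat.lt_or_ge 1 G.card with h1 | h1
    · rw [one_lt_card] at h1
      obtain ⟨e₁, he₁, e₂, he₂, hne⟩ := h1
      have hcong : ∀ e ∈ G, (p : ℤ) ∣ (e.1 : ℤ) - (e₁.1 : ℤ) ∧ (p : ℤ) ∣ (e.2 : ℤ) - (e₁.2 : ℤ) := by
        intro e he
        have h2 : r e = r e₁ := by rw [(hGE e he).2, (hGE e₁ he₁).2]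
        rw [hr] at h2
        simp only [Prod.mk.injEq] at h2
        constructor
        · rw [← ZMod.intCast_zmod_eq_zero_iff_dvd]
          push_cast
          rw [h2.1, sub_self]
        · rw [← ZMod.intCast_zmod_eq_zero_iff_dvd]
          push_cast
          rw [h2.2, sub_self]
      have hab : (e₂.2 : ℤ) - e₁.2 ≠ 0 ∨ -((e₂.1 : ℤ) - e₁.1) ≠ 0 := by
        by_contra hcon
        push Not at hcon
        apply hne
        have h3 : e₂.2 = e₁.2 := by omega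
        have h4 : e₂.1 = e₁.1 := by omega
        exact Prod.ext h4.symm h3.symm
      refine line_card (a := (e₂.2 : ℤ) - e₁.2) (b := -((e₂.1 : ℤ) - e₁.1))
        (c := ((e₂.2 : ℤ) - e₁.2) * e₁.1 + -((e₂.1 : ℤ) - e₁.1) * e₁.2) hab hxy G ?_
      intro e he
      obtain ⟨q1, q2, q3, q4, q5⟩ := hE e (hGE e he).1
      refine ⟨q1, q2, q4, ?_⟩
      have hd := det3 hp (hFF e₁ (hGE e₁ he₁).1) (hFF e₂ (hGE e₂ he₂).1) (hFF e (hGE e he).1)
        (hE e₁ (hGE e₁ he₁).1).2.2.2.2 (hcong e₂ he₂).1 (hcong e₂ he₂).2 (hcong e he).1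
        (hcong e he).2
      have hz : ((e₂.1 : ℤ) - e₁.1) * ((e.2 : ℤ) - e₁.2) - ((e.1 : ℤ) - e₁.1) * ((e₂.2 : ℤ) - e₁.2)
          = 0 := by
        apply Int.eq_zero_of_abs_lt_dvd hd
        have b1 := hE e₁ (hGE e₁ he₁).1
        have b2 := hE e₂ (hGE e₂ he₂).1
        have N0 : (0 : ℤ) < N := by
          have : 0 < N := by omega
          exact_mod_cast this
        have t1 : |((e₂.1 : ℤ) - e₁.1)| < N := by rw [abs_lt]; constructor <;> omega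
        have t2 : |((e.2 : ℤ) - e₁.2)| < N := by rw [abs_lt]; constructor <;> omega
        have t3 : |((e.1 : ℤ) - e₁.1)| < N := by rw [abs_lt]; constructor <;> omega
        have t4 : |((e₂.2 : ℤ) - e₁.2)| < N := by rw [abs_lt]; constructor <;> omega
        have s1 : |((e₂.1 : ℤ) - e₁.1) * ((e.2 : ℤ) - e₁.2)| < N * N := by
          rw [abs_mul]
          exact mul_lt_mul'' t1 t2 (abs_nonneg _) (abs_nonneg _)
        have s2 : |((e.1 : ℤ) - e₁.1) * ((e₂.2 : ℤ) - e₁.2)| < N * N := by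
          rw [abs_mul]
          exact mul_lt_mul'' t3 t4 (abs_nonneg _) (abs_nonneg _)
        have s3 : 2 * ((N : ℤ)) ^ 2 ≤ (p : ℤ) ^ 3 := by exact_mod_cast hpN
        have s4 := abs_sub (((e₂.1 : ℤ) - e₁.1) * ((e.2 : ℤ) - e₁.2))
          (((e.1 : ℤ) - e₁.1) * ((e₂.2 : ℤ) - e₁.2))
        nlinarith
      linarith
    · have h2 : 1 ≤ 2 * (x + y + z) ∨ E = ∅ := by
        rcases E.eq_empty_or_nonempty with h3 | ⟨e, he⟩
        · right; exact h3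
        · left
          have := (hE e he).2.2.2.1.1
          omega
      rcases h2 with h2 | h2
      · omega
      · rw [hG, h2]; simp
  calc E.card = ∑ c ∈ E.image r, (E.filter (fun e => r e = c)).card :=
        card_eq_sum_card_image r E
    _ ≤ ∑ _c ∈ E.image r, 2 * (x + y + z) := sum_le_sum hfib
    _ = (E.image r).card * (2 * (x + y + z)) := by rw [sum_const, smul_eq_mul]
    _ ≤ (p * (2 * (x + y + z))) * (2 * (x + y + z)) := Nat.mul_le_mul_right _ himg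
    _ = _ := by ring

end Pool.Agent.W5h37.Miy
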