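import Pool.Agent.W5h37.Miy.Basic

/-!
# The solutions on a line, for fixed exponents
-/

set_option autoImplicit false

namespace Pool.Agent.W5h37.Miy

open Polynomial Finset

/-- the restriction of the equation to the line `g = α f + β` -/
noncomputable def LP (α β : ℚ) (x y z : ℕ) : ℚ[X] :=
  (X ^ 2 + (C α * X + C β) ^ 2) ^ x + (2 * X * (C α * X + C β)) ^ y -
    (X ^ 2 - (C α * X + C β) ^ 2) ^ z

theorem LP_eval (α β t : ℚ) (x y z : ℕ) : (LP α β x y z).eval t =
    (t ^ 2 + (α * t + β) ^ 2) ^ x + (2 * t * (α * t + β)) ^ y - (t ^ 2 - (α * t + β) ^ 2) ^ z := by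
  simp [LP]

theorem LP_deg (α β : ℚ) (x y z : ℕ) : (LP α β x y z).natDegree ≤ 2 * (x + y + z) := by
  have l1 : (C α * X + C β : ℚ[X]).natDegree ≤ 1 := by compute_degree
  have l2 : ((C α * X + C β : ℚ[X]) ^ 2).natDegree ≤ 2 := (natDegree_pow_le_of_le 2 l1)
  have l3 : (X ^ 2 : ℚ[X]).natDegree ≤ 2 := by compute_degree
  have l4 : (2 * X : ℚ[X]).natDegree ≤ 1 := by compute_degree
  have m1 : (X ^ 2 + (C α * X + C β) ^ 2 : ℚ[X]).natDegree ≤ 2 := by
    have := natDegree_add_le_of_le l3 l2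
    simpa using this
  have m2 : (X ^ 2 - (C α * X + C β) ^ 2 : ℚ[X]).natDegree ≤ 2 := by
    have := natDegree_sub_le_of_le l3 l2
    simpa using this
  have m3 : (2 * X * (C α * X + C β) : ℚ[X]).natDegree ≤ 2 := natDegree_mul_le_of_le l4 l1
  have n1 : ((X ^ 2 + (C α * X + C β) ^ 2 : ℚ[X]) ^ x).natDegree ≤ 2 * (x + y + z) :=
    (natDegree_pow_le_of_le x m1).trans (by omega)
  have n2 : ((2 * X * (C α * X + C β) : ℚ[X]) ^ y).natDegree ≤ 2 * (x + y + z) :=
    (natDegree_pow_le_of_le y m3).trans (by omega)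
  have n3 : ((X ^ 2 - (C α * X + C β) ^ 2 : ℚ[X]) ^ z).natDegree ≤ 2 * (x + y + z) :=
    (natDegree_pow_le_of_le z m2).trans (by omega)
  have k1 := natDegree_add_le_of_le n1 n2
  rw [max_self] at k1
  have k2 := natDegree_sub_le_of_le k1 n3
  rw [max_self] at k2
  exact k2

/-- The equation does not hold identically on a line which contains a solution, apart from the
equal exponents `x = y`. -/
theorem LP_ne {α β : ℚ} {x y z : ℕ} (hx : 0 < x) (hy : 0 < y) (hz : 0 < z) (hxz : x < z)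
    (hxy : x ≠ y) {f g : ℕ} (hg : 0 < g) (hgf : g < f) (hl : (g : ℚ) = α * f + β) :
    LP α β x y z ≠ 0 := by
  intro h0
  have ev : ∀ t : ℚ, (t ^ 2 + (α * t + β) ^ 2) ^ x + (2 * t * (α * t + β)) ^ y -
      (t ^ 2 - (α * t + β) ^ 2) ^ z = 0 := fun t => by
    rw [← LP_eval, h0, eval_zero]
  by_cases hα : α = 1
  · subst hα
    obtain ⟨u, hu⟩ : ∃ u : ℕ, f = g + u := ⟨f - g, by omega⟩
    have hu0 : 0 < u := by omega
    have hβ : β = -(u : ℚ) := by
      rw [hu] at hl
      push_cast at hl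
      linarith
    subst hβ
    have hu1 : (u : ℚ) = 1 := by
      have h1 := ev 0
      simp only [ne_eq, OfNat.ofNat_ne_zero, not_false_eq_true, zero_pow, mul_zero, zero_add,
        zero_mul, hy.ne', add_zero, zero_sub] at h1
      have h1' : ((u : ℚ) ^ 2) ^ x = (-((u : ℚ) ^ 2)) ^ z := by
        rw [neg_sq] at h1
        linarith
      have h2 : ((u : ℚ) ^ 2) ^ x = ((u : ℚ) ^ 2) ^ z := by
        have h3 := congrArg abs h1'
        rw [abs_pow (((u : ℚ)) ^ 2) x, abs_pow (-((u : ℚ) ^ 2)) z, abs_neg,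
          abs_of_nonneg (by positivity : (0 : ℚ) ≤ (u : ℚ) ^ 2)] at h3
        exact h3
      rw [← pow_mul, ← pow_mul] at h2
      by_contra hne
      have h3 : (1 : ℚ) < u := by
        have : 1 ≤ u := hu0
        rcases this.lt_or_eq with h | h
        · exact_mod_cast h
        · exact absurd (by rw [← h]; norm_num) hne
      have h4 := pow_right_injective₀ (by linarith : (0 : ℚ) < u) h3.ne' h2
      omega
    rw [hu1] at ev
    have h1 := ev (1 / 2)
    norm_num at h1
    rw [zero_pow hz.ne', sub_zero] at h1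
    have h2 : |((1 : ℚ) / 2) ^ x| = |(-(1 / 2 : ℚ)) ^ y| := by
      rw [← abs_neg ((-(1 / 2 : ℚ)) ^ y)]
      congr 1
      rw [show (-(1 / 2 : ℚ)) = -1 / 2 by norm_num]
      linarith
    rw [abs_pow, abs_pow, abs_neg] at h2
    have h3 : |(1 : ℚ) / 2| = 1 / 2 := by norm_num
    rw [h3] at h2
    exact hxy (pow_right_injective₀ (by norm_num) (by norm_num) h2)
  · have h1 : (1 : ℚ) - α ≠ 0 := fun h => hα (by linarith)
    obtain ⟨t, ht⟩ : ∃ t : ℚ, t = β / (1 - α) := ⟨_, rfl⟩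
    have h2 : α * t + β = t := by
      rw [ht]; field_simp; ring
    have h3 := ev t
    rw [h2, sub_self, zero_pow hz.ne', sub_zero] at h3
    have h4 : t = 0 := by
      by_contra hne
      have e1 : 0 < t ^ 2 + t ^ 2 := by positivity
      have e2 : 0 < 2 * t * t := by
        have : 2 * t * t = t ^ 2 + t ^ 2 := by ring
        rw [this]; exact e1
      have e3 := pow_pos e1 x
      have e4 := pow_pos e2 y
      linarith
    have hβ : β = 0 := by
      rw [h4] at h2
      linarith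
    subst hβ
    have hf0 : (0 : ℚ) < f := by
      have : 0 < f := by omega
      exact_mod_cast this
    have hg0 : (0 : ℚ) < g := by exact_mod_cast hg
    have hgf' : (g : ℚ) < f := by exact_mod_cast hgf
    rw [add_zero] at hl
    have hα0 : 0 < α := by
      by_contra hc
      push Not at hc
      nlinarith
    have hα1 : α < 1 := by
      by_contra hc
      push Not at hc
      nlinarith
    have h5 := ev 1
    simp only [one_pow, mul_one, add_zero] at h5
    have h6 : (1 : ℚ) ≤ (1 + α ^ 2) ^ x := one_le_pow₀ (by nlinarith)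
    have h7 : (0 : ℚ) < (2 * α) ^ y := by positivity
    have h8 : (1 - α ^ 2) ^ z ≤ 1 := pow_le_one₀ (by nlinarith) (by nlinarith)
    linarith

theorem roots_card (P : ℚ[X]) (hP : P ≠ 0) (F : Finset ℕ)
    (h : ∀ n ∈ F, P.eval (n : ℚ) = 0) : F.card ≤ P.natDegree := by
  classical
  have h1 : F.image (fun n : ℕ => (n : ℚ)) ⊆ P.roots.toFinset := by
    intro v hv
    rw [mem_image] at hv
    obtain ⟨n, hn, rfl⟩ := hv
    rw [Multiset.mem_toFinset, mem_roots hP]
    exact h n hn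
  calc F.card = (F.image (fun n : ℕ => (n : ℚ))).card :=
        (card_image_of_injective _ Nat.cast_injective).symm
    _ ≤ P.roots.toFinset.card := card_le_card h1
    _ ≤ Multiset.card P.roots := Multiset.toFinset_card_le _
    _ ≤ P.natDegree := card_roots' P

/-- **The solutions on a line, for fixed exponents.** -/
theorem line_card {a b c : ℤ} (hab : a ≠ 0 ∨ b ≠ 0) {x y z : ℕ} (hxy : x ≠ y)
    (E : Finset (ℕ × ℕ)) (hE : ∀ e ∈ E, 0 < e.2 ∧ e.2 < e.1 ∧ Sol e.1 e.2 x y z ∧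
      a * (e.1 : ℤ) + b * (e.2 : ℤ) = c) : E.card ≤ 2 * (x + y + z) := by
  classical
  rcases E.eq_empty_or_nonempty with h0 | ⟨⟨f₀, g₀⟩, h₀⟩
  · rw [h0]; simp
  obtain ⟨hg0, hgf0, hs0, hl0⟩ := hE _ h₀
  simp only at hg0 hgf0 hs0 hl0
  have hxz := hs0.lt hg0 hgf0
  obtain ⟨hx, hy, hz, -⟩ := hs0
  have hinj : Set.InjOn Prod.fst (E : Set (ℕ × ℕ)) := by
    rintro ⟨f, g⟩ h1 ⟨f', g'⟩ h2 h3
    simp only at h3
    subst h3
    obtain ⟨hg, hgf, hs, hl⟩ := hE _ h1
    obtain ⟨hg', hgf', hs', hl'⟩ := hE _ h2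
    simp only at hg hgf hs hl hg' hgf' hs' hl'
    have := g_unique hx hs.2.2.2 hs'.2.2.2
    have := g_unique hx hs'.2.2.2 hs.2.2.2
    have : g = g' := by omega
    rw [this]
  by_cases hb : b = 0
  · -- a vertical line
    have ha : a ≠ 0 := by tauto
    have h1 : E ⊆ {(f₀, g₀)} := by
      intro e he
      rw [mem_singleton]
      obtain ⟨hg, hgf, hs, hl⟩ := hE _ he
      apply hinj he h₀
      rw [hb, zero_mul, add_zero] at hl hl0
      have h2 : a * (e.1 : ℤ) = a * (f₀ : ℤ) := by rw [hl, hl0]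
      have h3 := mul_left_cancel₀ ha h2
      exact_mod_cast h3
    calc E.card ≤ ({(f₀, g₀)} : Finset (ℕ × ℕ)).card := card_le_card h1
      _ = 1 := card_singleton _
      _ ≤ _ := by omega
  · have hbq : (b : ℚ) ≠ 0 := by exact_mod_cast hb
    obtain ⟨α, hα⟩ : ∃ α : ℚ, α = -(a : ℚ) / b := ⟨_, rfl⟩
    obtain ⟨β, hβ⟩ : ∃ β : ℚ, β = (c : ℚ) / b := ⟨_, rfl⟩
    have hline : ∀ e ∈ E, (e.2 : ℚ) = α * (e.1 : ℚ) + β := by
      intro e he
      obtain ⟨-, -, -, hl⟩ := hE _ he
      have hl' : (a : ℚ) * (e.1 : ℚ) + (b : ℚ) * (e.2 : ℚ) = c := by exact_mod_cast hl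
      rw [hα, hβ]
      field_simp
      linarith
    have hne := LP_ne (α := α) (β := β) hx hy hz hxz hxy hg0 hgf0 (hline _ h₀)
    calc E.card = (E.image Prod.fst).card := (card_image_of_injOn hinj).symm
      _ ≤ (LP α β x y z).natDegree := by
        apply roots_card _ hne
        intro n hn
        rw [mem_image] at hn
        obtain ⟨e, he, rfl⟩ := hn
        obtain ⟨hg, hgf, hs, -⟩ := hE _ he
        rw [LP_eval, ← hline e he]
        have hle : e.2 ^ 2 ≤ e.1 ^ 2 := Nat.pow_le_pow_left hgf.le 2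
        have h1 := hs.2.2.2
        have h2 : ((((e.1 ^ 2 + e.2 ^ 2) ^ x + (2 * e.1 * e.2) ^ y : ℕ)) : ℚ) =
            (((e.1 ^ 2 - e.2 ^ 2) ^ z : ℕ) : ℚ) := by rw [h1]
        push_cast [Nat.cast_sub hle] at h2
        linarith
      _ ≤ _ := LP_deg _ _ _ _ _

end Pool.Agent.W5h37.Miy
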